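import Pool.Agent.N436.DF.Stm3

/-!
# DH/9: potential 5, one real boundary edge

Statement and paper proof: helper436, Lean proof: helper681.
-/

set_option autoImplicit false
set_option linter.unusedSectionVars false

namespace Pool.Agent.N681.DF

open Finset Pool.Agent.N436.DF

variable {V : Type} [DecidableEq V]

/-- column sums -/
def cs (H : Hub V) (X : Finset V) (f : V → Bool) (i : Bool) (z : V) : ℤ :=
  ∑ x ∈ X with f x = i, H.m x z

lemma cs_nn {H : Hub V} (ok : Ok P13 H) (X : Finset V) (f : V → Bool) (i : Bool) (z : V) :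
    0 ≤ cs H X f i z := sum_nonneg fun x _ => ok.m_nn x z

lemma cs_le {H : Hub V} (ok : Ok P13 H) {X : Finset V} {f : V → Bool} {i : Bool} {x : V}
    (hx : x ∈ X) (hf : f x = i) (z : V) : H.m x z ≤ cs H X f i z :=
  single_le_sum (f := fun x => H.m x z) (fun x _ => ok.m_nn x z) (mem_filter.2 ⟨hx, hf⟩)

lemma n1_eq (H : Hub V) (X C : Finset V) (f : V → Bool) :
    n1 H X C f = ∑ z ∈ C, cs H X f true z := sum_comm

lemma mm_eq (H : Hub V) (X C : Finset V) :
    mm H X C = ∑ z ∈ C, ∑ x ∈ X, H.m x z := sum_comm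

lemma cs_add (H : Hub V) (X : Finset V) (f : V → Bool) (z : V) :
    cs H X f true z + cs H X f false z = ∑ x ∈ X, H.m x z := by
  have h := Finset.sum_filter_add_sum_filter_not X (fun x => f x = true) (fun x => H.m x z)
  simp only [Bool.not_eq_true] at h
  exact h

lemma cs_sum_le {H : Hub V} (ok : Ok P13 H) (X : Finset V) (f : V → Bool) (i : Bool)
    {B C : Finset V} (h : C ⊆ B) : ∑ z ∈ C, cs H X f i z ≤ ∑ z ∈ B, cs H X f i z :=
  sum_le_sum_of_subset_of_nonneg h fun z _ _ => cs_nn ok X f i z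

lemma cs_sum_insert {H : Hub V} (ok : Ok P13 H) (X : Finset V) (f : V → Bool) (i : Bool)
    {B C : Finset V} {z₀ : V} (h : C ⊆ B) (h0 : z₀ ∈ B) (h1 : z₀ ∉ C) :
    cs H X f i z₀ + ∑ z ∈ C, cs H X f i z ≤ ∑ z ∈ B, cs H X f i z := by
  rw [← sum_insert h1]
  exact cs_sum_le ok X f i (insert_subset h0 h)

lemma sv_nn {H : Hub V} (ok : Ok P13 H) (f : V → Bool) {s : V → V → ℤ}
    (hs : ∀ x z, 0 ≤ s x z) (x z : V) : 0 ≤ sv H f s x z := by
  unfold sv
  have h1 := ok.m_nn x z
  have h2 : 0 ≤ min (H.m x z) (s x z) := le_min h1 (hs x z)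
  rcases ok.r01 x z with h | h <;> rw [h] <;> split_ifs <;> linarith

/-- The situation. -/
structure Ctx (H : Hub V) (S X : Finset V) (v w : V) : Prop where
  ok : Ok P13 H
  mc : MinCex P13 H S
  XS : X ⊆ S
  h5 : hp H X = 5
  hv : v ∈ X
  hw : w ∈ S \ X
  hr : H.r v w = 1
  only : ∀ x ∈ X, ∀ z ∈ S \ X, H.r x z = 1 → x = v ∧ z = w
  add : ∀ X C, Disjoint X C → hp H (X ∪ C) = hp H X + hp H C - 12 * rr H X C - 5 * mm H X C
  m2 : ∀ Y, Y ⊆ S → Y.Nonempty → -2 ≤ hp H Y
  m3 : ∀ Y, Y ⊆ S → Y.Nonempty → Y ≠ S → 3 ≤ hp H Y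
  rb5 : RBge H S 5
  max : ∀ Y, X ⊂ Y → Y ⊆ S → RB H S Y → 6 ≤ hp H Y

section

variable {H : Hub V} {S X : Finset V} {v w : V}

lemma Ctx.disj {C : Finset V} (hC : C ⊆ S \ X) : Disjoint X C := by
  rw [Finset.disjoint_left]
  intro x hx hxC
  exact (mem_sdiff.1 (hC hxC)).2 hx

lemma Ctx.XneS (c : Ctx H S X v w) : X ≠ S := by
  intro h
  have := c.hw
  rw [h] at this
  simp at this

lemma Ctx.ks (c : Ctx H S X v w) (hk : S3_kill) {f : V → Bool} {p s : V → V → ℤ}
    (hf : ColBy H X f p) (hs : ∀ x z, 0 ≤ s x z)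
    (hc : ∀ x ∈ X, load H X f p x + ∑ z ∈ S \ X, s x z ≤ H.c (f x) x) :
    ∑ x ∈ X, ∑ z ∈ S \ X, sv H f s x z ≤ 4 := by
  obtain ⟨C, hC, hCn, h⟩ := hk V H S X f p s c.mc c.XS ⟨v, c.hv⟩ hf hs hc
  rw [c.h5] at h
  have hsub : X ∪ C ⊆ S := union_subset c.XS fun z hz => (mem_sdiff.1 (hC hz)).1
  have hne : (X ∪ C).Nonempty := ⟨v, mem_union_left _ c.hv⟩
  by_cases hS : X ∪ C = S
  · have hCe : C = S \ X := by
      rw [← hS, union_sdiff_cancel_left (Ctx.disj hC)]
    have h1 := c.m2 _ hsub hne
    rw [← hCe]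
    linarith
  · exfalso
    have h1 := c.m3 _ hsub hne hS
    have h2 : 0 ≤ ∑ x ∈ X, ∑ z ∈ C, sv H f s x z :=
      sum_nonneg fun x _ => sum_nonneg fun z _ => sv_nn c.ok f hs x z
    linarith

/-- service of one unit -/
def one (x₀ z₀ : V) (x z : V) : ℤ := if x = x₀ ∧ z = z₀ then 1 else 0

lemma Ctx.spare (c : Ctx H S X v w) (hk : S3_kill) {f : V → Bool} {p : V → V → ℤ}
    (hf : ColBy H X f p) {x₀ z₀ : V} (hx : x₀ ∈ X) (hz : z₀ ∈ S \ X)
    (hsp : load H X f p x₀ + 1 ≤ H.c (f x₀) x₀) : sv H f (one x₀ z₀) x₀ z₀ ≤ 4 := by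
  have hs : ∀ x z, 0 ≤ one x₀ z₀ x z := by
    intro x z
    unfold one
    split_ifs <;> norm_num
  refine le_trans ?_ (c.ks hk (s := one x₀ z₀) hf hs ?_)
  · refine le_trans ?_ (single_le_sum (f := fun x => ∑ z ∈ S \ X, sv H f (one x₀ z₀) x z)
      (fun x _ => sum_nonneg fun z _ => sv_nn c.ok f hs x z) hx)
    exact single_le_sum (f := fun z => sv H f (one x₀ z₀) x₀ z)
      (fun z _ => sv_nn c.ok f hs x₀ z) hz
  · intro x hxX
    by_cases hxx : x = x₀
    · subst hxx
      have : ∑ z ∈ S \ X, one x z₀ x z = 1 := by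
        unfold one
        simp only [true_and]
        rw [sum_ite_eq' (S \ X) z₀, if_pos hz]
      rw [this]
      exact hsp
    · have : ∑ z ∈ S \ X, one x₀ z₀ x z = 0 := by
        refine sum_eq_zero fun z _ => ?_
        unfold one
        rw [if_neg fun h => hxx h.1]
      rw [this, add_zero]
      exact hf.cap x hxX

lemma Ctx.a (c : Ctx H S X v w) (hk : S3_kill) {f : V → Bool} {p : V → V → ℤ}
    (hf : ColBy H X f p) (hsp : load H X f p v + 1 ≤ H.c (f v) v) : False := by
  have h := c.spare hk hf c.hv c.hw hsp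
  unfold sv at h
  have h1 : one v w v w = 1 := if_pos ⟨rfl, rfl⟩
  rw [h1, c.hr] at h
  have h2 := c.ok.m_nn v w
  have h3 : 0 ≤ min (H.m v w) 1 := le_min h2 (by norm_num)
  split_ifs at h <;> linarith

lemma Ctx.b (c : Ctx H S X v w) (hk : S3_kill) {f : V → Bool} {p : V → V → ℤ}
    (hf : ColBy H X f p) {x₀ z₀ : V} (hx : x₀ ∈ X) (hz : z₀ ∈ S \ X) (hm : 1 ≤ H.m x₀ z₀)
    (hsp : load H X f p x₀ + 1 ≤ H.c (f x₀) x₀) : False := by
  have h := c.spare hk hf hx hz hsp
  unfold sv at h
  have h1 : one x₀ z₀ x₀ z₀ = 1 := if_pos ⟨rfl, rfl⟩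
  rw [h1, min_eq_right hm] at h
  rcases c.ok.r01 x₀ z₀ with h3 | h3 <;> rw [h3] at h <;> split_ifs at h <;> linarith

lemma Ctx.c1 (c : Ctx H S X v w) (hk : S3_kill) {f : V → Bool} {p : V → V → ℤ}
    (hf : ColBy H X f p) :
    (if f v = true then 2 else 0) + 2 * ∑ z ∈ S \ X, cs H X f true z ≤ 4 := by
  have hcap : ∀ x ∈ X, load H X f p x + ∑ z ∈ S \ X, (fun _ _ => (0 : ℤ)) x z ≤ H.c (f x) x := by
    intro x hx
    simp only [sum_const_zero, add_zero]
    exact hf.cap x hx
  have h := c.ks hk (s := fun _ _ => 0) hf (fun _ _ => le_refl _) hcap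
  refine le_trans ?_ h
  rw [← n1_eq]
  unfold n1
  rw [sum_filter, mul_sum]
  have key : ∀ x ∈ X, (if x = v then (if f v = true then (2 : ℤ) else 0) else 0) +
      2 * (if f x = true then ∑ z ∈ S \ X, H.m x z else 0) ≤
      ∑ z ∈ S \ X, sv H f (fun _ _ => 0) x z := by
    intro x hx
    have h1 : ∀ z ∈ S \ X, (if z = w then (if x = v then (if f v = true then (2 : ℤ) else 0)
        else 0) else 0) + 2 * (if f x = true then H.m x z else 0) ≤
        sv H f (fun _ _ => 0) x z := by
      intro z hz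
      unfold sv
      have hm := c.ok.m_nn x z
      have hmin : min (H.m x z) 0 = 0 := min_eq_right hm
      rw [hmin]
      by_cases hzw : z = w
      · by_cases hxv : x = v
        · subst hzw hxv
          rw [c.hr]
          simp only [if_true]
          split_ifs <;> linarith
        · simp only [if_neg hxv]
          rcases c.ok.r01 x z with h3 | h3 <;> rw [h3] <;> split_ifs <;> linarith
      · simp only [if_neg hzw]
        rcases c.ok.r01 x z with h3 | h3 <;> rw [h3] <;> split_ifs <;> linarith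
    refine le_trans (le_of_eq ?_) (sum_le_sum h1)
    rw [sum_add_distrib, sum_ite_eq' (S \ X) w, if_pos c.hw, ← mul_sum]
    congr 2
    split_ifs
    · rfl
    · simp
  refine le_trans (le_of_eq ?_) (sum_le_sum key)
  rw [sum_add_distrib, sum_ite_eq' X v, if_pos c.hv]

/-- sets containing `v` in `X` -/
lemma Ctx.vC (c : Ctx H S X v w) {C : Finset V} (hC : C ⊆ X) (hv : v ∈ C) : 5 ≤ hp H C := by
  refine c.rb5 C (hC.trans c.XS) ⟨v, hv, w, ?_, c.hr⟩
  have := mem_sdiff.1 c.hw
  exact mem_sdiff.2 ⟨this.1, fun h => this.2 (hC h)⟩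

lemma Ctx.pC (c : Ctx H S X v w) {C : Finset V} (hC : C ⊆ X) (hn : C.Nonempty) :
    3 ≤ hp H C := by
  refine c.m3 C (hC.trans c.XS) hn fun h => c.XneS ?_
  exact Subset.antisymm c.XS (h ▸ hC)

/-- the budgets -/
lemma Ctx.bud (c : Ctx H S X v w) {C : Finset V} (hC : C ⊆ S \ X) (hn : C.Nonempty) :
    3 + 5 * mm H X C ≤ hp H C + 2 := by
  have h1 := c.add X C (Ctx.disj hC)
  rw [c.h5] at h1
  have hsub : X ∪ C ⊆ S := union_subset c.XS fun z hz => (mem_sdiff.1 (hC hz)).1
  have hne : (X ∪ C).Nonempty := ⟨v, mem_union_left _ c.hv⟩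
  have hw := mem_sdiff.1 c.hw
  by_cases hwC : w ∈ C
  · have h2 : 1 ≤ rr H X C := by
      unfold rr
      have h3 : ∀ x z, 0 ≤ H.r x z := fun x z => by
        rcases c.ok.r01 x z with h | h <;> rw [h] <;> norm_num
      refine le_trans ?_ (single_le_sum (f := fun x => ∑ z ∈ C, H.r x z)
        (fun x _ => sum_nonneg fun z _ => h3 x z) c.hv)
      refine le_trans (le_of_eq c.hr.symm) ?_
      exact single_le_sum (f := fun z => H.r v z) (fun z _ => h3 v z) hwC
    have h3 := c.m2 _ hsub hne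
    linarith
  · have h2 : rr H X C = 0 := by
      unfold rr
      refine sum_eq_zero fun x hx => sum_eq_zero fun z hz => ?_
      rcases c.ok.r01 x z with h | h
      · exact h
      · exact absurd ((c.only x hx z (hC hz) h).2 ▸ hz) hwC
    have h3 : 6 ≤ hp H (X ∪ C) := by
      refine c.max _ ?_ hsub ⟨v, mem_union_left _ c.hv, w, ?_, c.hr⟩
      · obtain ⟨z, hz⟩ := hn
        refine Finset.ssubset_iff_subset_ne.2 ⟨subset_union_left, fun h => ?_⟩
        have : z ∈ X := by rw [h]; exact mem_union_right _ hz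
        exact (mem_sdiff.1 (hC hz)).2 this
      · refine mem_sdiff.2 ⟨hw.1, fun h => ?_⟩
        rcases mem_union.1 h with h | h
        · exact hw.2 h
        · exact hwC h
    rw [h2] at h1
    linarith

lemma Ctx.us (c : Ctx H S X v w) {f : V → Bool} {p : V → V → ℤ} (hf : ColBy H X f p) :
    US H S X f p (fun _ _ => 0) where
  col := hf
  nn _ _ := le_refl _
  le x z := c.ok.m_nn x z
  cap x hx := by
    simp only [sum_const_zero, add_zero]
    exact hf.cap x hx

end

/-- reservation of one unit of the colour `i` at the vertices of `A` -/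
def rs (i : Bool) (A : Finset V) (i' : Bool) (x : V) : ℤ := if i' = i ∧ x ∈ A then 1 else 0

lemma rs_nn (i : Bool) (A : Finset V) (i' : Bool) (x : V) : 0 ≤ rs i A i' x := by
  unfold rs
  split_ifs <;> norm_num

lemma rs_self (i : Bool) {A : Finset V} {x : V} (hx : x ∈ A) : rs i A i x = 1 :=
  if_pos ⟨rfl, hx⟩

lemma cost_rs_false (A C : Finset V) : cost (rs false A) C = 3 * ((A ∩ C).card : ℤ) := by
  unfold cost rs
  have h : ∀ z ∈ C, (5 * (if true = false ∧ z ∈ A then (1 : ℤ) else 0) +
      3 * (if false = false ∧ z ∈ A then (1 : ℤ) else 0)) = 3 * (if z ∈ A then 1 else 0) := by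
    intro z _
    simp
  rw [sum_congr rfl h, ← mul_sum, sum_ite_mem, inter_comm]
  simp

lemma cost_rs_true (A C : Finset V) : cost (rs true A) C = 5 * ((A ∩ C).card : ℤ) := by
  unfold cost rs
  have h : ∀ z ∈ C, (5 * (if true = true ∧ z ∈ A then (1 : ℤ) else 0) +
      3 * (if false = true ∧ z ∈ A then (1 : ℤ) else 0)) = 5 * (if z ∈ A then 1 else 0) := by
    intro z _
    simp
  rw [sum_congr rfl h, ← mul_sum, sum_ite_mem, inter_comm]
  simp

section

variable {H : Hub V} {S X : Finset V} {v w : V}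

/-- state in which `v` has the colour 1 and no boundary condition -/
lemma Ctx.stA (c : Ctx H S X v w) (hs : S3_state) (hk : S3_kill) :
    ∃ f p, ColBy H X f p ∧ f v = true := by
  obtain ⟨f, p, hf, hl⟩ := hs V H S X (rs false {v}) c.mc c.XS c.XneS (rs_nn _ _) (by
    intro C hC hn
    rw [cost_rs_false]
    have h1 := c.pC hC hn
    have h2 : (({v} ∩ C).card : ℤ) ≤ 1 := by
      have := card_le_card (inter_subset_left : ({v} : Finset V) ∩ C ⊆ {v})
      rw [card_singleton] at this
      exact_mod_cast this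
    linarith)
  refine ⟨f, p, hf, ?_⟩
  by_contra hfv
  rw [Bool.not_eq_true] at hfv
  have h1 := (hl v c.hv).1
  rw [hfv, rs_self false (mem_singleton_self v)] at h1
  exact c.a hk hf (by rw [hfv]; exact h1)

/-- state in which `v` has the colour 2 -/
lemma Ctx.stB (c : Ctx H S X v w) (hs : S3_state) (hk : S3_kill) :
    ∃ f p, ColBy H X f p ∧ f v = false := by
  obtain ⟨f, p, hf, hl⟩ := hs V H S X (rs true {v}) c.mc c.XS c.XneS (rs_nn _ _) (by
    intro C hC hn
    rw [cost_rs_true]
    have h1 := c.pC hC hn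
    by_cases hvC : v ∈ C
    · have h2 : (({v} ∩ C).card : ℤ) ≤ 1 := by
        have := card_le_card (inter_subset_left : ({v} : Finset V) ∩ C ⊆ {v})
        rw [card_singleton] at this
        exact_mod_cast this
      have h3 := c.vC hC hvC
      linarith
    · rw [singleton_inter_of_notMem hvC]
      simp only [card_empty, Nat.cast_zero, mul_zero]
      linarith)
  refine ⟨f, p, hf, ?_⟩
  by_contra hfv
  rw [Bool.not_eq_false] at hfv
  have h1 := (hl v c.hv).1
  rw [hfv, rs_self true (mem_singleton_self v)] at h1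
  exact c.a hk hf (by rw [hfv]; exact h1)

/-- state in which `v` and the boundary vertex `x₀` have the colour 1 -/
lemma Ctx.stC (c : Ctx H S X v w) (hs : S3_state) (hk : S3_kill) {x₀ z₀ : V} (hx : x₀ ∈ X)
    (hz : z₀ ∈ S \ X) (hm : 1 ≤ H.m x₀ z₀) :
    ∃ f p, ColBy H X f p ∧ f v = true ∧ f x₀ = true := by
  obtain ⟨f, p, hf, hl⟩ := hs V H S X (rs false {v, x₀}) c.mc c.XS c.XneS (rs_nn _ _) (by
    intro C hC hn
    rw [cost_rs_false]
    have h1 := c.pC hC hn
    by_cases hvC : v ∈ C
    · have h2 : (({v, x₀} ∩ C).card : ℤ) ≤ 2 := by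
        have := card_le_card (inter_subset_left : ({v, x₀} : Finset V) ∩ C ⊆ {v, x₀})
        have h4 := this.trans (card_le_two (a := v) (b := x₀))
        exact_mod_cast h4
      have h3 := c.vC hC hvC
      linarith
    · have h2 : (({v, x₀} ∩ C).card : ℤ) ≤ 1 := by
        rw [insert_inter_of_notMem hvC]
        have := card_le_card (inter_subset_left : ({x₀} : Finset V) ∩ C ⊆ {x₀})
        rw [card_singleton] at this
        exact_mod_cast this
      linarith)
  refine ⟨f, p, hf, ?_, ?_⟩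
  · by_contra hfv
    rw [Bool.not_eq_true] at hfv
    have h1 := (hl v c.hv).1
    rw [hfv, rs_self false (mem_insert_self v _)] at h1
    exact c.a hk hf (by rw [hfv]; exact h1)
  · by_contra hfv
    rw [Bool.not_eq_true] at hfv
    have h1 := (hl x₀ hx).1
    rw [hfv, rs_self false (mem_insert_of_mem (mem_singleton_self _))] at h1
    exact c.b hk hf hx hz hm (by rw [hfv]; exact h1)

lemma Ctx.contra (c : Ctx H S X v w) (hs : S3_state) (hk : S3_kill) (ht : S3_two) : False := by
  obtain ⟨g, q, hg, hgv⟩ := c.stB hs hk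
  have hgn := c.c1 hk hg
  rw [hgv, if_neg (by simp)] at hgn
  by_cases h0 : ∑ z ∈ S \ X, cs H X g true z = 0
  · obtain ⟨f, p, hf, hfv⟩ := c.stA hs hk
    have hfn := c.c1 hk hf
    rw [hfv, if_pos rfl] at hfn
    refine ht V H S X v w f g p q _ _
      (fun i z => if i = true then ∑ x ∈ X, H.m x z else cs H X f true z)
      c.mc c.XS c.hv c.hw c.only (c.us hf) (c.us hg) hfv hgv ?_ ?_ ?_
    · intro i z
      split_ifs
      · exact sum_nonneg fun x _ => c.ok.m_nn x z
      · exact cs_nn c.ok _ _ _ _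
    · intro z hz
      simp only [sub_zero, if_true, Bool.false_eq_true, if_false]
      refine ⟨le_refl _, ?_, ?_, ?_⟩
      · have h1 := cs_add H X f z
        have h2 := cs_nn c.ok X f true z
        have h3 : cs H X f false z ≤ ∑ x ∈ X, H.m x z := by linarith
        exact h3
      · have h1 : cs H X g true z = 0 :=
          (sum_eq_zero_iff_of_nonneg fun z _ => cs_nn c.ok X g true z).1 h0 z hz
        have h2 : cs H X g true z ≤ cs H X f true z := by
          rw [h1]
          exact cs_nn c.ok _ _ _ _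
        exact h2
      · have h1 := cs_add H X g z
        have h2 := cs_nn c.ok X g true z
        have h3 : cs H X g false z ≤ ∑ x ∈ X, H.m x z := by linarith
        exact h3
    · intro C hC hn
      have h1 := c.bud hC hn
      have h2 : cost (fun i z => if i = true then ∑ x ∈ X, H.m x z else cs H X f true z) C =
          5 * mm H X C + 3 * ∑ z ∈ C, cs H X f true z := by
        unfold cost
        rw [mm_eq, mul_sum, mul_sum, ← sum_add_distrib]
        exact sum_congr rfl fun z _ => by simp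
      rw [h2]
      have h3 := cs_sum_le c.ok X f true hC
      have h4 : ∑ z ∈ C, cs H X f true z ≤ 1 := by omega
      linarith
  · -- a vertex of the boundary coloured 1 by `g`
    obtain ⟨z₀, hz₀, hz0⟩ : ∃ z ∈ S \ X, cs H X g true z ≠ 0 := by
      by_contra hcon
      push_neg at hcon
      exact h0 (sum_eq_zero hcon)
    obtain ⟨x₀, hx₀, hx0⟩ : ∃ x ∈ X.filter (fun x => g x = true), H.m x z₀ ≠ 0 := by
      by_contra hcon
      push_neg at hcon
      exact hz0 (sum_eq_zero hcon)
    obtain ⟨hx₀, hgx⟩ := mem_filter.1 hx₀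
    have hm : 1 ≤ H.m x₀ z₀ := by
      have := c.ok.m_nn x₀ z₀
      omega
    obtain ⟨f, p, hf, hfv, hfx⟩ := c.stC hs hk hx₀ hz₀ hm
    have hfn := c.c1 hk hf
    rw [hfv, if_pos rfl] at hfn
    have hgz : 1 ≤ cs H X g true z₀ := hm.trans (cs_le c.ok hx₀ hgx z₀)
    have hfz : 1 ≤ cs H X f true z₀ := hm.trans (cs_le c.ok hx₀ hfx z₀)
    refine ht V H S X v w f g p q _ _
      (fun i z => if i = true then ∑ x ∈ X, H.m x z - (if z = z₀ then 1 else 0)
        else cs H X g true z)
      c.mc c.XS c.hv c.hw c.only (c.us hf) (c.us hg) hfv hgv ?_ ?_ ?_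
    · intro i z
      split_ifs with h1 h2
      · subst h2
        have h3 := cs_add H X g z
        have h4 := cs_nn c.ok X g false z
        linarith
      · rw [sub_zero]
        exact sum_nonneg fun x _ => c.ok.m_nn x z
      · exact cs_nn c.ok _ _ _ _
    · intro z hz
      simp only [sub_zero, if_true, Bool.false_eq_true, if_false]
      have k1 : cs H X f true z ≤ cs H X g true z := by
        by_cases hzz : z = z₀
        · subst hzz
          have h3 := cs_sum_le c.ok X f true (singleton_subset_iff.2 hz)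
          rw [sum_singleton] at h3
          omega
        · have h3 := cs_sum_insert c.ok X f true (singleton_subset_iff.2 hz) hz₀
            (by rw [mem_singleton]; exact fun h => hzz h.symm)
          rw [sum_singleton] at h3
          have h4 := cs_nn c.ok X g true z
          omega
      have k2 : cs H X f false z ≤ ∑ x ∈ X, H.m x z - (if z = z₀ then 1 else 0) := by
        have h1 := cs_add H X f z
        have h2 := cs_nn c.ok X f true z
        split_ifs with hzz
        · subst hzz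
          linarith
        · linarith
      have k3 : cs H X g false z ≤ ∑ x ∈ X, H.m x z - (if z = z₀ then 1 else 0) := by
        have h1 := cs_add H X g z
        have h2 := cs_nn c.ok X g true z
        split_ifs with hzz
        · subst hzz
          linarith
        · linarith
      exact ⟨k1, k2, le_refl _, k3⟩
    · intro C hC hn
      have h1 := c.bud hC hn
      have h2 : cost (fun i z => if i = true then ∑ x ∈ X, H.m x z - (if z = z₀ then 1 else 0)
          else cs H X g true z) C =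
          5 * mm H X C - 5 * (if z₀ ∈ C then 1 else 0) + 3 * ∑ z ∈ C, cs H X g true z := by
        unfold cost
        rw [mm_eq, ← sum_ite_eq' C z₀ (fun _ => (1 : ℤ)), mul_sum, mul_sum, mul_sum,
          ← sum_sub_distrib, ← sum_add_distrib]
        refine sum_congr rfl fun z _ => ?_
        simp only [if_true, Bool.false_eq_true, if_false]
        ring
      rw [h2]
      by_cases hzC : z₀ ∈ C
      · rw [if_pos hzC]
        have h3 := cs_sum_le c.ok X g true hC
        omega
      · rw [if_neg hzC]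
        have h3 := cs_sum_insert c.ok X g true hC hz₀ hzC
        omega

end

theorem rb6a (hb : S3_base) (hs : S3_state) (hk : S3_kill) (ht : S3_two) : S3_rb6a := by
  intro V _ H S X v w mc rb5 XS h5 max hv hw hr only
  obtain ⟨-, hadd, -, -, hmc⟩ := hb V H mc.ok
  obtain ⟨m2, m3⟩ := hmc S mc
  have c : Ctx H S X v w := ⟨mc.ok, mc, XS, h5, hv, hw, hr, only, hadd, m2,
    fun Y h1 h2 h3 => (m3 Y h1 h2 h3).2, rb5, max⟩
  exact c.contra hs hk ht

end Pool.Agent.N681.DF
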